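import Pool.Agent.H774.CR.WH

/-!
# Covariance of maximal equiangular tight frames is rigid in every dimension different from three

Let `x` be a maximal equiangular tight frame in a `d`-dimensional space, `d ≠ 3`, with an abelian
group `G` of symmetries (permutations of the `d ^ 2` lines induced by unitary transformations) which
is transitive on the lines. All known maximal equiangular tight frames are of this kind: orbits
of the Weyl-Heisenberg group, and the lines of Hoggar in dimension `8`. We show

* all first order deformations of `x`, in the space of ALL maximal equiangular tight frames, are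
  invariant under `G`;
* all maximal equiangular tight frames near `x` have the symmetry group `G`;
* the frames with the symmetry group `G` are open and closed in the space of all maximal
  equiangular tight frames;
* if `d ≥ 5` is prime, then `x` is isolated modulo unitary transformations and phases.

In dimension `3` this is false: there are continuous families of maximal equiangular tight frames.

Idea of the proof. By the library (`Y387.MD`) the first order deformations of a maximal
equiangular tight frame are the sums of trivial ones and of the elements `w` of a complex vector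
space, which are determined by the antisymmetric matrices `z i j = ⟨x i, x j⟩ ⟨x j, w i⟩`. The group
`G` acts on these matrices; let `z` belong to the character `θ`. Choose unitary transformations
`U g` inducing `g ∈ G`, and let `U g U h = ω(g, h) U h U g`. The pairing `ω` is nondegenerate, so
`θ = ω(k, ·)` for an element `k`. Let `x 0` be a vector of the frame, `x g` its translates and
`z g = ⟨x 0, x g⟩ ⟨x g, Y⟩` the row of `z` at `0`. As `∑ h, ω(h, g) |x h⟩⟨x h|` is a multiple of the
inverse of `U g`, the row is self-dual: `∑ h, ω(h, g) z h = d z g`. The antisymmetry of `z` reads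
`z g = - θ(g) z (-g)`, and both together give `z (g - k) = θ(g) z g`. So the numbers `|⟨x g, Y⟩|`
are invariant under `k`, and `Y` is an eigenvector of `U k`. Let `Q` be the set of all `g` with
`⟨x g, Y⟩ ≠ 0`. The relations for `g` and for `k - g` in `Q` say that `θ(g)^3 = 1`. By the design
property `Q` has at least `d (d + 1) / 2` elements, more than half of `G`, so `θ^3 = 1`.

Let `θ` have order three and let `T` be the multiple of `U k` fixing `Y`, `T^3 = 1`. Then
`⟨x 0, U g T x 0⟩ = θ(g) ⟨x 0, U g x 0⟩` for `g ∈ Q`, so the only nonzero entry of `U g` in the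
decomposition of `x 0` into eigenvectors of `T` is the one between the components with the
eigenvalues `θ(g)` and `θ(g)^2`. The orthogonality relations give `|Q| ≤ d (d + 3) / 3`, and
`d (d + 1) / 2 ≤ d (d + 3) / 3` means `d ≤ 3`.

A permutation `g ∈ G` has finite order. If there were frames `y` arbitrarily close to `x` whose
triple products `T y` are not invariant under `g`, then a limit `H` of the normalised differences
`T (y ∘ g) - T y` would be a nonzero derivative of the triple products along a first order
deformation. So `H` is invariant under `g`, and the sum of its translates is zero, a contradiction.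
In prime dimension there are only finitely many frames with a transitive group of symmetries
(library, `PrimeFiniteness`).
-/

set_option autoImplicit false

open Filter Topology

namespace Pool.Agent.Results.MP_d0f9e0_co.CovarianceIsRigid

section Definitions

variable {V : Type} [NormedAddCommGroup V] [InnerProductSpace ℂ V] {ι : Type}

/-- `x` is a maximal equiangular tight frame in the `d`-dimensional space `V`: `d ^ 2` unit vectors
with constant angle. -/
def IsMaximalETF (d : ℕ) [Fintype ι] (x : ι → V) : Prop :=
  Module.finrank ℂ V = d ∧ Fintype.card ι = d ^ 2 ∧ (∀ i, ‖x i‖ = 1) ∧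
    ∀ i j, i ≠ j → ‖inner ℂ (x i) (x j)‖ = 1 / Real.sqrt ((d : ℝ) + 1)

/-- The permutation `π` of the lines spanned by the vectors of `x` is induced by a unitary
transformation. -/
def IsSymmetry (x : ι → V) (π : Equiv.Perm ι) : Prop :=
  ∃ U : V ≃ₗᵢ[ℂ] V, ∀ k, ∃ c : ℂ, U (x k) = c • x (π k)

/-- The group of permutations `G` is abelian and transitive. -/
def IsAbelianTransitive (G : Subgroup (Equiv.Perm ι)) : Prop :=
  (∀ g ∈ G, ∀ h ∈ G, g * h = h * g) ∧ ∀ i j, ∃ g ∈ G, g i = j

/-- `x` and `y` differ by a unitary transformation and phases. -/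
def Equivalent (x y : ι → V) : Prop :=
  ∃ U : V ≃ₗᵢ[ℂ] V, ∀ k, ∃ c : ℂ, ‖c‖ = 1 ∧ U (x k) = c • y k

/-- the triple product of three vectors of `x` -/
noncomputable def triple (x : ι → V) (i j k : ι) : ℂ :=
  inner ℂ (x i) (x j) * inner ℂ (x j) (x k) * inner ℂ (x k) (x i)

/-- `v` is a first order deformation of `x`: if the vectors `x i` move with velocities `v i`, all
the numbers `|⟨x i, x j⟩|²` (including `i = j`) are constant to first order. -/
def IsDeformation (x v : ι → V) : Prop :=
  ∀ i j, HasDerivAt (fun t : ℝ =>
    ‖inner ℂ (x i + (t : ℂ) • v i) (x j + (t : ℂ) • v j)‖ ^ 2) 0 0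

/-- the derivative of the triple product of `i`, `j`, `k` if the vectors `x l` move with
velocities `v l` -/
noncomputable def tripleDeriv (x v : ι → V) (i j k : ι) : ℂ :=
  deriv (fun t : ℝ => triple (fun l => x l + (t : ℂ) • v l) i j k) 0

end Definitions

/-- the orbit of the vector `ψ` under the Weyl-Heisenberg group: the vectors
`j ↦ exp (2 π i b j / d) ψ (j - a)` for `a`, `b` modulo `d` -/
noncomputable def whOrbit (d : ℕ) [NeZero d] (ψ : ZMod d → ℂ) (g : ZMod d × ZMod d) :
    EuclideanSpace ℂ (ZMod d) :=
  WithLp.toLp 2 (fun j => ZMod.stdAddChar (g.2 * j) * ψ (j - g.1))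

section Aux

variable {V : Type} [NormedAddCommGroup V] [InnerProductSpace ℂ V] {ι : Type} [Fintype ι]

theorem tripleDeriv_eq (x v : ι → V) (i j k : ι) : tripleDeriv x v i j k =
    H774.IS.dtp x (fun i j => inner ℂ (v i) (x j) + inner ℂ (x i) (v j)) i j k :=
  (H774.IS.tp_deriv x v i j k).deriv

theorem fin_dim {d : ℕ} {x : ι → V} (hd : 0 < d) (hx : IsMaximalETF d x) :
    FiniteDimensional ℂ V :=
  Module.finite_of_finrank_pos (by rw [hx.1]; exact hd)

theorem triple_continuous (i j k : ι) : Continuous fun y : ι → V => triple y i j k := by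
  unfold triple
  exact (((continuous_apply i).inner (continuous_apply j)).mul
    ((continuous_apply j).inner (continuous_apply k))).mul
    ((continuous_apply k).inner (continuous_apply i))

/-- **Frames near a symmetric frame are symmetric.** -/
theorem near {d : ℕ} (hd : 0 < d) (hd3 : d ≠ 3) {x : ι → V} {G : Subgroup (Equiv.Perm ι)}
    (hx : IsMaximalETF d x) (hG : IsAbelianTransitive G) (hxG : ∀ g ∈ G, IsSymmetry x g) :
    ∃ ε > 0, ∀ y : ι → V, IsMaximalETF d y →
      (∀ i j k, ‖triple y i j k - triple x i j k‖ < ε) → ∀ g ∈ G, IsSymmetry y g := by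
  classical
  have := fin_dim hd hx
  obtain ⟨ε, hε, h⟩ := H774.CR.near (x := x) ⟨hx.2.2.1, hx.2.2.2⟩ hd hd3 hx.2.1 hx.1 G hG.1 hG.2 hxG
  exact ⟨ε, hε, fun y hy hyx g hg => h y ⟨hy.2.2.1, hy.2.2.2⟩ hyx g hg⟩

theorem near_eventually {d : ℕ} (hd : 0 < d) (hd3 : d ≠ 3) {x : ι → V}
    {G : Subgroup (Equiv.Perm ι)} (hx : IsMaximalETF d x) (hG : IsAbelianTransitive G)
    (hxG : ∀ g ∈ G, IsSymmetry x g) :
    ∀ᶠ y in 𝓝 x, IsMaximalETF d y → ∀ g ∈ G, IsSymmetry y g := by
  obtain ⟨ε, hε, h⟩ := near hd hd3 hx hG hxG
  have h2 : ∀ᶠ y in 𝓝 x, ∀ i j k, ‖triple y i j k - triple x i j k‖ < ε := by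
    rw [eventually_all]
    intro i
    rw [eventually_all]
    intro j
    rw [eventually_all]
    intro k
    have h3 := (triple_continuous i j k).tendsto x
    rw [tendsto_iff_norm_sub_tendsto_zero] at h3
    exact h3.eventually (gt_mem_nhds hε)
  filter_upwards [h2] with y hy hyE
  exact h y hyE hy

end Aux

/-- **Covariance of maximal equiangular tight frames is rigid, except in dimension three.**

(1) Let `x` be a maximal equiangular tight frame in a space `V` of dimension `d ≠ 3`, and let `G` be
an abelian transitive group of symmetries of `x`. Then all first order deformations `v` of `x` (in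
the space of all maximal equiangular tight frames) are invariant under `G`: the derivatives of the
triple products are. And every maximal equiangular tight frame of `V` whose triple products are
close to those of `x` has all the symmetries in `G`.

(2) For every abelian transitive group `G` of permutations the maximal equiangular tight frames
with symmetry group `G` are open and closed in the space of all maximal equiangular tight frames
of a space of dimension `d ≠ 3`.

(3) Let the orbit of `ψ` under the Weyl-Heisenberg group be a maximal equiangular tight frame of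
`ℂ^d`, `d ≠ 3`. Then all maximal equiangular tight frames `y` of `ℂ^d` close to this orbit are
covariant under `(ℤ/d)²`: the translations of the indices are symmetries of `y`.

(4) Let `p ≥ 5` be a prime and let `x` be a maximal equiangular tight frame of `ℂ^p` with a
transitive group of symmetries. Every maximal equiangular tight frame of `ℂ^p` whose triple
products are close to those of `x` is equivalent to `x`; and in a continuous family of maximal
equiangular tight frames of `ℂ^p` over a connected space, in which one member is equivalent to `x`,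
all members are equivalent to `x`. -/
theorem result :
    (∀ (d : ℕ) (V : Type) [NormedAddCommGroup V] [InnerProductSpace ℂ V] (ι : Type) [Fintype ι]
      (x : ι → V) (G : Subgroup (Equiv.Perm ι)), 0 < d → d ≠ 3 → IsMaximalETF d x →
      IsAbelianTransitive G → (∀ g ∈ G, IsSymmetry x g) →
      (∀ v : ι → V, IsDeformation x v → ∀ g ∈ G, ∀ i j k,
        tripleDeriv x v (g i) (g j) (g k) = tripleDeriv x v i j k) ∧
      (∃ ε > 0, ∀ y : ι → V, IsMaximalETF d y →
        (∀ i j k, ‖triple y i j k - triple x i j k‖ < ε) → ∀ g ∈ G, IsSymmetry y g)) ∧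
    (∀ (d : ℕ) (V : Type) [NormedAddCommGroup V] [InnerProductSpace ℂ V] (ι : Type) [Fintype ι]
      (G : Subgroup (Equiv.Perm ι)), 0 < d → d ≠ 3 → IsAbelianTransitive G →
      IsClopen {y : {y : ι → V // IsMaximalETF d y} | ∀ g ∈ G, IsSymmetry y.1 g}) ∧
    (∀ (d : ℕ) [NeZero d] (ψ : ZMod d → ℂ), d ≠ 3 → IsMaximalETF d (whOrbit d ψ) →
      ∃ ε > 0, ∀ y : ZMod d × ZMod d → EuclideanSpace ℂ (ZMod d), IsMaximalETF d y →
        (∀ g, ‖y g - whOrbit d ψ g‖ < ε) → ∀ g, IsSymmetry y (Equiv.addLeft g)) ∧
    (∀ (p : ℕ) (x : Fin (p ^ 2) → EuclideanSpace ℂ (Fin p)), p.Prime → 5 ≤ p →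
      IsMaximalETF p x → (∀ i j, ∃ π, IsSymmetry x π ∧ π i = j) →
      (∃ ε > 0, ∀ y : Fin (p ^ 2) → EuclideanSpace ℂ (Fin p), IsMaximalETF p y →
        (∀ i j k, ‖triple y i j k - triple x i j k‖ < ε) → Equivalent y x) ∧
      (∀ (X : Type) [TopologicalSpace X] [ConnectedSpace X]
        (y : X → Fin (p ^ 2) → EuclideanSpace ℂ (Fin p)), Continuous y →
        (∀ t, IsMaximalETF p (y t)) → (∃ t, Equivalent (y t) x) → ∀ t, Equivalent (y t) x)) := by
  refine ⟨?_, ?_, ?_, ?_⟩
  · intro d V _ _ ι _ x G hd hd3 hx hG hxG
    refine ⟨fun v hv g hg i j k => ?_, near hd hd3 hx hG hxG⟩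
    classical
    have := fin_dim hd hx
    have hE : Pool.Agent.Y387.SF.IsEtf d x := ⟨hx.2.2.1, hx.2.2.2⟩
    obtain ⟨U, hU⟩ := hxG g hg
    rw [tripleDeriv_eq, tripleDeriv_eq]
    exact H774.IS.first_inv hE hd hx.2.1 hx.1 hU
      (fun z hz => H774.CR.perm_inv hE hd hd3 hx.2.1 hx.1 G hG.1 hG.2 hxG hz hg)
      ((Pool.Agent.Y387.MD.isDef_iff (x := x) v).2 hv) i j k
  · intro d V _ _ ι _ G hd hd3 hG
    classical
    constructor
    · have h1 : {y : {y : ι → V // IsMaximalETF d y} | ∀ g ∈ G, IsSymmetry y.1 g} =
          ⋂ g ∈ G, ⋂ i, ⋂ j, ⋂ k, {y : {y : ι → V // IsMaximalETF d y} |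
            triple y.1 (g i) (g j) (g k) = triple y.1 i j k} := by
        ext y
        simp only [Set.mem_setOf_eq, Set.mem_iInter]
        refine forall_congr' fun g => forall_congr' fun _ => ?_
        have := fin_dim hd y.2
        exact H774.CR.ind_iff (x := y.1) ⟨y.2.2.2.1, y.2.2.2.2⟩ hd y.2.2.1 y.2.1 g
      rw [h1]
      exact isClosed_biInter fun g _ => isClosed_iInter fun i => isClosed_iInter fun j =>
        isClosed_iInter fun k => isClosed_eq
          ((triple_continuous (g i) (g j) (g k)).comp continuous_subtype_val)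
          ((triple_continuous i j k).comp continuous_subtype_val)
    · rw [isOpen_iff_mem_nhds]
      intro y hy
      have h1 := near_eventually hd hd3 y.2 hG hy
      have h2 := continuous_subtype_val.continuousAt (x := y) |>.eventually h1
      filter_upwards [h2] with u hu
      exact hu u.2
  · intro d _ ψ hd3 hx
    have hd : 0 < d := Nat.pos_of_ne_zero (NeZero.ne d)
    set G : Subgroup (Equiv.Perm (ZMod d × ZMod d)) :=
      { carrier := Set.range Equiv.addLeft
        mul_mem' := by
          rintro _ _ ⟨a, rfl⟩ ⟨b, rfl⟩
          exact ⟨a + b, (H774.CR.addLeft_mul a b).symm⟩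
        one_mem' := ⟨0, Equiv.ext fun a => zero_add a⟩
        inv_mem' := by
          rintro _ ⟨a, rfl⟩
          refine ⟨-a, Equiv.ext fun b => ?_⟩
          rw [Equiv.Perm.inv_def]
          simp } with hGdef
    have hG : IsAbelianTransitive G := by
      constructor
      · rintro _ ⟨a, rfl⟩ _ ⟨b, rfl⟩
        rw [H774.CR.addLeft_mul, H774.CR.addLeft_mul, add_comm]
      · intro i j
        exact ⟨Equiv.addLeft (j - i), ⟨_, rfl⟩, by simp⟩
    have hxG : ∀ g ∈ G, IsSymmetry (whOrbit d ψ) g := by
      rintro _ ⟨a, rfl⟩
      exact H774.CR.disp_sym d ψ a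
    obtain ⟨ε, hε, h⟩ := Metric.eventually_nhds_iff.1 (near_eventually hd hd3 hx hG hxG)
    refine ⟨ε, hε, fun y hy hyx g => h ?_ hy _ ⟨g, rfl⟩⟩
    rw [dist_pi_lt_iff hε]
    intro i
    rw [dist_eq_norm]
    exact hyx i
  · intro p x hp hp5 hx htr
    have : Fact p.Prime := ⟨hp⟩
    have hE : Pool.Agent.Y387.SF.IsEtf p x := ⟨hx.2.2.1, hx.2.2.2⟩
    obtain ⟨ε, hε, h1⟩ := H774.IS.iso hp5 hE (fun i j => by
      obtain ⟨π, ⟨U, hU⟩, hπ⟩ := htr i j
      exact ⟨U, π, hU, hπ⟩)
    have hmain : ∀ y : Fin (p ^ 2) → EuclideanSpace ℂ (Fin p), IsMaximalETF p y →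
        (∀ i j k, ‖triple y i j k - triple x i j k‖ < ε) → Equivalent y x :=
      fun y hy hyx => h1 y ⟨hy.2.2.1, hy.2.2.2⟩ hyx
    have hinv : ∀ y : Fin (p ^ 2) → EuclideanSpace ℂ (Fin p), Equivalent y x → ∀ i j k,
        triple y i j k = triple x i j k := by
      rintro y ⟨U, hU⟩ i j k
      exact H774.IS.tp_equiv hU i j k
    refine ⟨⟨ε, hε, hmain⟩, fun X _ _ y hy hyE ⟨t₀, ht₀⟩ => ?_⟩
    set C : Set X := {t | ∀ i j k, triple (y t) i j k = triple x i j k} with hC
    have hCE : ∀ t, t ∈ C → Equivalent (y t) x := by
      intro t ht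
      apply hmain _ (hyE t)
      intro i j k
      rw [ht i j k, sub_self, norm_zero]
      exact hε
    have hclosed : IsClosed C := by
      have h2 : C = ⋂ i, ⋂ j, ⋂ k, {t | triple (y t) i j k = triple x i j k} := by
        ext t
        simp [hC]
      rw [h2]
      exact isClosed_iInter fun i => isClosed_iInter fun j => isClosed_iInter fun k =>
        isClosed_eq ((triple_continuous i j k).comp hy) continuous_const
    have hopen : IsOpen C := by
      rw [isOpen_iff_mem_nhds]
      intro t ht
      have h2 : ∀ᶠ s in 𝓝 t, ∀ i j k, ‖triple (y s) i j k - triple x i j k‖ < ε := by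
        rw [eventually_all]
        intro i
        rw [eventually_all]
        intro j
        rw [eventually_all]
        intro k
        have h3 := ((triple_continuous i j k).comp hy).tendsto t
        simp only [Function.comp_apply] at h3
        rw [ht i j k, tendsto_iff_norm_sub_tendsto_zero] at h3
        exact h3.eventually (gt_mem_nhds hε)
      filter_upwards [h2] with s hs
      exact hinv _ (hmain _ (hyE s) hs)
    have huniv : C = Set.univ :=
      IsClopen.eq_univ ⟨hclosed, hopen⟩ ⟨t₀, hinv _ ht₀⟩
    intro t
    apply hCE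
    rw [huniv]
    exact Set.mem_univ t

end Pool.Agent.Results.MP_d0f9e0_co.CovarianceIsRigid
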