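import Pool.Agent.H774.FN.Good

/-!
# Weyl-Heisenberg frames are finite in number, isolated and algebraic in most dimensions

A unit vector `ψ ∈ ℂ^d` is a fiducial vector if its orbit under the Weyl-Heisenberg group is a
maximal equiangular tight frame. We prove, for all `d` which are not `0` or `3` modulo `8`, for
`d = 8`, and for all `d ≠ 3` congruent to `3` modulo `8` which are squarefree or have a prime factor
congruent to `1` modulo `4` or are a power of a prime `p ≥ 5`:

* up to phases there are only finitely many fiducial vectors;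
* up to phases all fiducial vectors have algebraic coordinates;
* the orbits of fiducial vectors are isolated, up to unitary transformations and phases, among ALL
  maximal equiangular tight frames of `ℂ^d`.

In dimension `3` all three statements are false. (The odd dimensions `d ≠ 3` which are not covered are
`27`, `99`, `147`, `171`, ...; by a classical theorem they have density zero.)

Idea of the proof. If there were infinitely many fiducial vectors, then an ultrapower `K` of `ℂ`
would carry a nonconstant one, and a derivation, commuting with the conjugation, which does not kill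
it (if a fiducial vector were not algebraic, take `K = ℂ`). Let `x` be a fiducial vector over `K`,
`x' = Y + θ x` with `Y` orthogonal to `x`, and `κ(g) = ⟨x, D_g Y⟩ / ⟨x, D_g x⟩`, the logarithmic
derivative of the overlaps `⟨x, D_g x⟩` in the holomorphic direction. The identity
`(1/d) ∑_g [g, h] ⟨a, D_g b⟩ ⟨D_g c, e⟩ = ⟨a, D_h e⟩ ⟨D_h c, b⟩` and `|⟨x, D_g x⟩|² = 1 / (d + 1)`
give

* (first order) `κ(-g) = - κ(g)`;
* (second order) `κ² = N + N^ - n (1 + d δ₀)`, where `N = |κ|²`, `n = ‖Y‖²` and `^` is the
  symplectic Fourier transform (divided by `d`); in particular `κ²` is real;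
* (third order) `(N^ + n) (κ - conj κ) = 0` outside `0`, so that `κ² = - n` wherever `κ` is not real.

Let `n ≠ 0` and let `I` be the set of all `g` with `κ(g)` not real. As `∑ κ² = 0` and
`∑ N = d (d + 1) n`, the set `I` has `d (d + 1) / 2` elements. It is symmetric without fixed points,
hence `4 ∣ d (d + 1)`. Let `s(h) = ∑_{g ∈ I} [g, h]` and `t(h) = ∑_{g ∈ I} ± [g, h]`, where the sign
distinguishes the two values of `κ` on `I`. Then `h ∈ I` if and only if `h ≠ 0` and
`s(h) = t(h) = 0`, so `I` is invariant under the units of `ℤ/d`; and `t² = - d (d - 2 s)` outside `I`,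
so `(d - s) / 2` is an algebraic integer. By the Frobenius congruences `s(h)^p = s(p h)` and
`t(h)^p = t(p h)` modulo `p`, a prime `p ≠ 2` dividing `d` exactly once divides all `s(h)`; if `d` is
odd and squarefree, `s(h)` is therefore an odd multiple of `d` for all `h ≠ 0` outside `I`, which
contradicts Parseval's identity for `d > 3`. If `d` is a power of a prime `p ≥ 5`, then an odd prime
divisor of `p - 1` would divide `|I|`, or `p` is `1` modulo `4`. If `d` is odd and `p` is `1` modulo
`4`, then all elements of `p`-power order are in `I`, as `t` would be both odd and invariant under a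
square root of `-1`; by Poisson summation `|I|` would be divisible by a too high power of `p`.
Poisson summation over a maximal isotropic subgroup excludes `7` modulo `8`, and over the elements
of order `4` it excludes `4` modulo `8` and `8`. In dimension `3` the set `I` is the complement of a line.

Isolation among all maximal equiangular tight frames follows with the theorem that all maximal
equiangular tight frames near a covariant one are covariant (`CovarianceIsRigid`, valid for `d ≠ 3`).
-/

set_option autoImplicit false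

open Filter Topology

namespace Pool.Agent.Results.MP_d0f9e0_co.FiniteIsolatedAlgebraic

section Definitions

variable {V : Type} [NormedAddCommGroup V] [InnerProductSpace ℂ V] {ι : Type}

/-- `x` is a maximal equiangular tight frame in the `d`-dimensional space `V`: `d ^ 2` unit vectors
with constant angle. -/
def IsMaximalETF (d : ℕ) [Fintype ι] (x : ι → V) : Prop :=
  Module.finrank ℂ V = d ∧ Fintype.card ι = d ^ 2 ∧ (∀ i, ‖x i‖ = 1) ∧
    ∀ i j, i ≠ j → ‖inner ℂ (x i) (x j)‖ = 1 / Real.sqrt ((d : ℝ) + 1)

/-- `x` and `y` differ by a unitary transformation and phases. -/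
def Equivalent (x y : ι → V) : Prop :=
  ∃ U : V ≃ₗᵢ[ℂ] V, ∀ k, ∃ c : ℂ, ‖c‖ = 1 ∧ U (x k) = c • y k

/-- the triple product of three vectors of `x` -/
noncomputable def triple (x : ι → V) (i j k : ι) : ℂ :=
  inner ℂ (x i) (x j) * inner ℂ (x j) (x k) * inner ℂ (x k) (x i)

end Definitions

/-- the orbit of the vector `ψ` under the Weyl-Heisenberg group: the vectors
`j ↦ exp (2 π i b j / d) ψ (j - a)` for `a`, `b` modulo `d` -/
noncomputable def whOrbit (d : ℕ) [NeZero d] (ψ : ZMod d → ℂ) (g : ZMod d × ZMod d) :
    EuclideanSpace ℂ (ZMod d) :=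
  WithLp.toLp 2 (fun j => ZMod.stdAddChar (g.2 * j) * ψ (j - g.1))

section Aux

variable {V : Type} [NormedAddCommGroup V] [InnerProductSpace ℂ V] {ι : Type} [Fintype ι]

theorem triple_continuous (i j k : ι) : Continuous fun y : ι → V => triple y i j k := by
  unfold triple
  exact (((continuous_apply i).inner (continuous_apply j)).mul
    ((continuous_apply j).inner (continuous_apply k))).mul
    ((continuous_apply k).inner (continuous_apply i))

theorem family {d : ℕ} {x : ι → V} {ε : ℝ} (hε : 0 < ε)
    (hmain : ∀ y : ι → V, IsMaximalETF d y →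
      (∀ i j k, ‖triple y i j k - triple x i j k‖ < ε) → Equivalent y x)
    (X : Type) [TopologicalSpace X] [ConnectedSpace X] (y : X → ι → V) (hy : Continuous y)
    (hyE : ∀ t, IsMaximalETF d (y t)) (h0 : ∃ t, Equivalent (y t) x) (t : X) :
    Equivalent (y t) x := by
  obtain ⟨t₀, ht₀⟩ := h0
  have hinv : ∀ y : ι → V, Equivalent y x → ∀ i j k, triple y i j k = triple x i j k := by
    rintro y ⟨U, hU⟩ i j k
    exact H774.IS.tp_equiv hU i j k
  set C : Set X := {t | ∀ i j k, triple (y t) i j k = triple x i j k} with hC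
  have hCE : ∀ t, t ∈ C → Equivalent (y t) x := by
    intro t ht
    apply hmain _ (hyE t)
    intro i j k
    rw [ht i j k, sub_self, norm_zero]
    exact hε
  have hclosed : IsClosed C := by
    have h2 : C = ⋂ i, ⋂ j, ⋂ k, {t | triple (y t) i j k = triple x i j k} := by
      ext t
      simp [hC]
    rw [h2]
    exact isClosed_iInter fun i => isClosed_iInter fun j => isClosed_iInter fun k =>
      isClosed_eq ((triple_continuous i j k).comp hy) continuous_const
  have hopen : IsOpen C := by
    rw [isOpen_iff_mem_nhds]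
    intro t ht
    have h2 : ∀ᶠ s in 𝓝 t, ∀ i j k, ‖triple (y s) i j k - triple x i j k‖ < ε := by
      rw [eventually_all]
      intro i
      rw [eventually_all]
      intro j
      rw [eventually_all]
      intro k
      have h3 := ((triple_continuous i j k).comp hy).tendsto t
      simp only [Function.comp_apply] at h3
      rw [ht i j k, tendsto_iff_norm_sub_tendsto_zero] at h3
      exact h3.eventually (gt_mem_nhds hε)
    filter_upwards [h2] with s hs
    exact hinv _ (hmain _ (hyE s) hs)
  have huniv : C = Set.univ := IsClopen.eq_univ ⟨hclosed, hopen⟩ ⟨t₀, hinv _ ht₀⟩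
  apply hCE
  rw [huniv]
  exact Set.mem_univ t

end Aux

/-- **Fiducial vectors of the Weyl-Heisenberg group are finite in number, algebraic and isolated
in dimension `8` and in all dimensions `d ≠ 3` which are not divisible by `8` and, if they are `3`
modulo `8`, are squarefree or have a prime factor congruent to `1` modulo `4` or are a power of a prime `p ≥ 5`.**

(1) Up to phases there are only finitely many vectors `ψ` such that the orbit of `ψ` under the
Weyl-Heisenberg group is a maximal equiangular tight frame of `ℂ^d`, and each of them has, up to a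
phase, algebraic coordinates.

(2) Let the orbit of `ψ` be a maximal equiangular tight frame. Every maximal equiangular tight frame
`y` of `ℂ^d` (covariant or not) whose triple products are close to those of the orbit is equivalent
to the orbit. In a continuous family of maximal equiangular tight frames over a connected space, in
which one member is equivalent to the orbit of `ψ`, all members are equivalent to it. -/
theorem result (d : ℕ) [NeZero d] (h8 : d % 8 ≠ 0 ∨ d = 8)
    (h3 : d % 8 = 3 → (Squarefree d ∧ d ≠ 3) ∨ (∃ p, p.Prime ∧ p ∣ d ∧ p % 4 = 1) ∨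
      ∃ p k, p.Prime ∧ 5 ≤ p ∧ d = p ^ k) :
    (∃ S : Set (ZMod d → ℂ), S.Finite ∧
      (∀ φ ∈ S, IsMaximalETF d (whOrbit d φ) ∧ ∀ i, IsAlgebraic ℚ (φ i)) ∧
      ∀ ψ, IsMaximalETF d (whOrbit d ψ) → ∃ φ ∈ S, ∃ c : ℂ, ‖c‖ = 1 ∧ ψ = fun i => c * φ i) ∧
    (∀ ψ : ZMod d → ℂ, IsMaximalETF d (whOrbit d ψ) →
      (∃ ε > 0, ∀ y : ZMod d × ZMod d → EuclideanSpace ℂ (ZMod d), IsMaximalETF d y →
        (∀ i j k, ‖triple y i j k - triple (whOrbit d ψ) i j k‖ < ε) →
        Equivalent y (whOrbit d ψ)) ∧
      (∀ (X : Type) [TopologicalSpace X] [ConnectedSpace X]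
        (y : X → ZMod d × ZMod d → EuclideanSpace ℂ (ZMod d)), Continuous y →
        (∀ t, IsMaximalETF d (y t)) → (∃ t, Equivalent (y t) (whOrbit d ψ)) →
        ∀ t, Equivalent (y t) (whOrbit d ψ))) := by
  have hd : H774.FN.Rigid d := H774.FN.rigid h8 h3
  have hd3 : d ≠ 3 := by
    rintro rfl
    rcases h3 (by norm_num) with ⟨_, h⟩ | ⟨p, hp, hp3, hp4⟩ | ⟨p, k, hp, hp5, hpk⟩
    · exact h rfl
    · rw [(Nat.prime_dvd_prime_iff_eq hp Nat.prime_three).1 hp3] at hp4
      norm_num at hp4
    · rcases k with _ | k
      · norm_num at hpk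
      · have h5 : 5 ≤ p ^ (k + 1) := hp5.trans (Nat.le_self_pow (Nat.succ_ne_zero k) p)
        omega
  have hE : ∀ ψ : ZMod d → ℂ, IsMaximalETF d (whOrbit d ψ) ↔
      Pool.Agent.Y387.SF.IsEtf d (H774.CR.disp d ψ) := fun ψ =>
    ⟨fun h => ⟨h.2.2.1, h.2.2.2⟩,
      fun h => ⟨H774.FN.wh_rank d, H774.FN.wh_card d, h.nrm, h.ang⟩⟩
  constructor
  · obtain ⟨S, hS, hS1⟩ := H774.FN.finite_wh d hd
    have h1 : ∀ φ : ZMod d → ℂ, ∃ c : ℂ, ‖c‖ = 1 ∧ (IsMaximalETF d (whOrbit d φ) →
        ∀ i, IsAlgebraic ℚ (c * φ i)) := by
      intro φ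
      by_cases hφ : IsMaximalETF d (whOrbit d φ)
      · obtain ⟨c, hc, h2⟩ := H774.FN.exists_alg_rep hd (H774.FN.fid_of_etf d ((hE φ).1 hφ))
        exact ⟨c, hc, fun _ => h2⟩
      · exact ⟨1, norm_one, fun h => absurd h hφ⟩
    choose c hc hca using h1
    have hsm : ∀ (a : ℂ) (φ : ZMod d → ℂ), ‖a‖ = 1 → IsMaximalETF d (whOrbit d φ) →
        IsMaximalETF d (whOrbit d fun i => a * φ i) := by
      intro a φ ha hφ
      have h3 : ∀ g, whOrbit d (fun i => a * φ i) g = a • whOrbit d φ g := by
        intro g
        ext m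
        simp only [whOrbit, PiLp.smul_apply, smul_eq_mul]
        ring
      refine ⟨hφ.1, hφ.2.1, fun i => ?_, fun i j hij => ?_⟩
      · rw [h3, norm_smul, ha, one_mul]
        exact hφ.2.2.1 i
      · rw [h3, h3, inner_smul_left, inner_smul_right, norm_mul, norm_mul, RCLike.norm_conj, ha,
          one_mul, one_mul]
        exact hφ.2.2.2 i j hij
    refine ⟨(fun φ i => c φ * φ i) '' {φ ∈ S | IsMaximalETF d (whOrbit d φ)},
      (hS.subset (Set.sep_subset _ _)).image _, ?_, fun ψ hψ => ?_⟩
    · rintro _ ⟨φ, ⟨_, hφ⟩, rfl⟩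
      exact ⟨hsm _ _ (hc φ) hφ, hca φ hφ⟩
    · obtain ⟨φ, hφ, hφE, a, ha, hψφ⟩ := hS1 ψ ((hE ψ).1 hψ)
      refine ⟨_, ⟨φ, ⟨hφ, (hE φ).2 hφE⟩, rfl⟩, a * (c φ)⁻¹, ?_, ?_⟩
      · rw [norm_mul, norm_inv, ha, hc, inv_one, one_mul]
      · have hc0 : c φ ≠ 0 := by
          intro h0
          have h4 := hc φ
          rw [h0, norm_zero] at h4
          exact zero_ne_one h4
        rw [hψφ]
        funext i
        field_simp
  · intro ψ hψ
    obtain ⟨ε, hε, h1⟩ := H774.FN.isolated_wh d hd hd3 ((hE ψ).1 hψ)
    have hmain : ∀ y : ZMod d × ZMod d → EuclideanSpace ℂ (ZMod d), IsMaximalETF d y →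
        (∀ i j k, ‖triple y i j k - triple (whOrbit d ψ) i j k‖ < ε) →
        Equivalent y (whOrbit d ψ) :=
      fun y hy hyx => h1 y ⟨hy.2.2.1, hy.2.2.2⟩ hyx
    exact ⟨⟨ε, hε, hmain⟩, fun X _ _ y hy hyE h0 t => family hε hmain X y hy hyE h0 t⟩

end Pool.Agent.Results.MP_d0f9e0_co.FiniteIsolatedAlgebraic
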