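import Pool.Agent.H138.SIC.Phase

/-!
# The phases of a Weyl–Heisenberg maximal equiangular tight frame are not all roots of unity

Let `A` be a finite abelian group of order `d` and let `ψ ∈ ℂ^A` be a vector whose orbit under the
Weyl–Heisenberg group of `A` is a maximal equiangular tight frame of `ℂ^d`.  If an odd prime `p`
divides `d` exactly once and `d + 1` is not a perfect square (for instance if `d = p ≥ 5`, or if `d`
lies outside a set of density zero), then at least `p - 1` of the phases `√(d+1) ⟨ψ, D_g ψ⟩` are not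
roots of unity, and for every rephasing of the `d²` vectors at least `(p - 1) d` entries of the
signature matrix are not roots of unity.
-/

set_option autoImplicit false

namespace Pool.Agent.Results.MP_d0f9e0_co.PhasesNotRootsOfUnity

open Finset ComplexConjugate

variable {A : Type} [AddCommGroup A] [Fintype A]

/-- The displacement operator of the pair `g = (a, ξ)` of an element and a complex character of the
finite abelian group `A`: `(D_(a,ξ) ψ)(k) = ξ(k) ψ(k + a)`. -/
noncomputable def disp (g : A × AddChar A ℂ) (ψ : EuclideanSpace ℂ A) : EuclideanSpace ℂ A :=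
  WithLp.toLp 2 (fun k => g.2 k * ψ (k + g.1))

/-- The orbit `(D_g ψ)_g` is a maximal equiangular tight frame of `ℂ^A`, `d = |A|`: `d ^ 2` unit
vectors with `|⟨D_g ψ, D_h ψ⟩| = 1 / √(d + 1)` for `g ≠ h`. -/
def OrbitIsMaxETF (ψ : EuclideanSpace ℂ A) : Prop :=
  (∀ g, ‖disp g ψ‖ = 1) ∧ ∀ g h : A × AddChar A ℂ, g ≠ h →
    ‖inner ℂ (disp g ψ) (disp h ψ)‖ = 1 / √((Fintype.card A : ℝ) + 1)

/-- `z` is a root of unity. -/
def IsRootOfUnity (z : ℂ) : Prop := ∃ n : ℕ, n ≠ 0 ∧ z ^ n = 1

/-- The phase `√(d + 1) ⟨x, y⟩` of two vectors of `ℂ^A`, `d = |A|`. -/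
noncomputable def phase (x y : EuclideanSpace ℂ A) : ℂ :=
  ((√((Fintype.card A : ℝ) + 1) : ℝ) : ℂ) * inner ℂ x y

theorem inner_disp (g : A × AddChar A ℂ) (ψ : EuclideanSpace ℂ A) :
    inner ℂ ψ (disp g ψ) = H138.SIC.ov (fun k => conj (ψ k)) ψ g := by
  rw [PiLp.inner_apply, H138.SIC.ov]
  apply Finset.sum_congr rfl
  intro k _
  simp only [disp, RCLike.inner_apply]
  ring

theorem ch_conj (χ : AddChar A ℂ) (a : A) : conj (χ a) = χ (-a) := by
  rw [AddChar.map_neg_eq_conj]

theorem inner_disp_disp (g h : A × AddChar A ℂ) (ψ : EuclideanSpace ℂ A) :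
    inner ℂ (disp g ψ) (disp h ψ) = (h.2 - g.2) (-g.1) * inner ℂ ψ (disp (h - g) ψ) := by
  rw [PiLp.inner_apply, PiLp.inner_apply, Finset.mul_sum, ← Equiv.sum_comp (Equiv.addRight (-g.1))]
  apply Finset.sum_congr rfl
  intro k _
  simp only [disp, RCLike.inner_apply, Equiv.coe_addRight, map_mul, ch_conj]
  have e1 : k + -g.1 + h.1 = k + (h - g).1 := by rw [Prod.fst_sub]; abel
  have e2 : k + -g.1 + g.1 = k := by abel
  have e3 : h.2 (k + -g.1) * g.2 (-(k + -g.1)) = (h.2 - g.2) (-g.1) * (h - g).2 k := by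
    rw [Prod.snd_sub, ← AddChar.map_add_eq_mul, ← AddChar.sub_apply, add_comm]
  rw [e1, e2]
  linear_combination (ψ (k + (h - g).1) * conj (ψ k)) * e3

theorem ov_neg (g : A × AddChar A ℂ) (ψ : A → ℂ) :
    H138.SIC.ov (fun k => conj (ψ k)) ψ (-g)
      = g.2 (-g.1) * conj (H138.SIC.ov (fun k => conj (ψ k)) ψ g) := by
  rw [H138.SIC.ov, H138.SIC.ov, map_sum, Finset.mul_sum, ← Equiv.sum_comp (Equiv.addRight g.1)]
  apply Finset.sum_congr rfl
  intro k _
  simp only [Equiv.coe_addRight, map_mul, ch_conj, Complex.conj_conj, Prod.fst_neg, Prod.snd_neg,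
    add_neg_cancel_right, AddChar.neg_apply]
  have e3 : g.2 (-(k + g.1)) = g.2 (-g.1) * g.2 (-k) := by
    rw [← AddChar.map_add_eq_mul]
    congr 1
    abel
  rw [e3]
  ring

omit [Fintype A] in
theorem disp_zero (ψ : EuclideanSpace ℂ A) : disp (0 : A × AddChar A ℂ) ψ = ψ := by
  ext k
  simp [disp]

theorem fid (ψ : EuclideanSpace ℂ A) (hψ : OrbitIsMaxETF ψ) :
    H138.SIC.Fid (H138.SIC.ov (fun k => conj (ψ k)) ψ) := by
  constructor
  · exact H138.SIC.ov_SD _ _
  · rw [← inner_disp, disp_zero]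
    have h1 := hψ.1 0
    rw [disp_zero] at h1
    rw [inner_self_eq_norm_sq_to_K, h1]
    simp
  · intro g hg
    rw [ov_neg]
    have h1 := hψ.2 0 g (Ne.symm hg)
    rw [disp_zero, inner_disp] at h1
    have h2 : H138.SIC.ov (fun k => conj (ψ k)) ψ g * conj (H138.SIC.ov (fun k => conj (ψ k)) ψ g)
        = ((Fintype.card A : ℂ) + 1)⁻¹ := by
      rw [Complex.mul_conj, Complex.normSq_eq_norm_sq, h1, div_pow, one_pow,
        Real.sq_sqrt (by positivity)]
      push_cast
      rw [one_div]
    rw [← h2]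
    ring

theorem root_iff (z : ℂ) : IsRootOfUnity z ↔ H138.SIC.IsRoot z := Iff.rfl

theorem root_mul {x y : ℂ} (hx : IsRootOfUnity x) (hy : IsRootOfUnity y) :
    IsRootOfUnity (x * y) := by
  obtain ⟨n, hn, hxn⟩ := hx
  obtain ⟨m, hm, hym⟩ := hy
  refine ⟨n * m, mul_ne_zero hn hm, ?_⟩
  rw [mul_pow, pow_mul, hxn, one_pow, mul_comm n m, pow_mul, hym, one_pow, mul_one]

theorem root_inv {x : ℂ} (hx : IsRootOfUnity x) : IsRootOfUnity x⁻¹ := by
  obtain ⟨n, hn, hxn⟩ := hx
  exact ⟨n, hn, by rw [inv_pow, hxn, inv_one]⟩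

theorem root_of_pow {x : ℂ} {n : ℕ} (hn : n ≠ 0) (hx : IsRootOfUnity (x ^ n)) :
    IsRootOfUnity x := by
  obtain ⟨m, hm, hxm⟩ := hx
  exact ⟨n * m, mul_ne_zero hn hm, by rw [pow_mul, hxm]⟩

theorem root_ch (χ : AddChar A ℂ) (a : A) : IsRootOfUnity (χ a) :=
  ⟨Fintype.card A, Fintype.card_ne_zero, H138.SIC.ch_pow χ a⟩

theorem root_prod {ι : Type*} (s : Finset ι) (f : ι → ℂ) (h : ∀ i ∈ s, IsRootOfUnity (f i)) :
    IsRootOfUnity (∏ i ∈ s, f i) := by
  classical
  induction s using Finset.induction_on with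
  | empty => exact ⟨1, one_ne_zero, by simp⟩
  | insert a s ha ih =>
    rw [Finset.prod_insert ha]
    exact root_mul (h a (mem_insert_self _ _)) (ih (fun i hi => h i (mem_insert_of_mem hi)))

theorem card_smul (u : A × AddChar A ℂ) : Fintype.card A • u = 0 := by
  apply Prod.ext
  · rw [Prod.smul_fst]
    exact card_nsmul_eq_zero
  · rw [Prod.smul_snd, ← AddChar.card_eq (α := A)]
    exact card_nsmul_eq_zero

/-- along the translates by a multiple of `u` the phases cannot all be roots of unity -/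
theorem exists_bad (ψ : EuclideanSpace ℂ A) (c : A × AddChar A ℂ → ℂ) (hc : ∀ g, ‖c g‖ = 1)
    (u : A × AddChar A ℂ) (hu : ¬ IsRootOfUnity (phase ψ (disp u ψ))) (g : A × AddChar A ℂ) :
    ∃ i < Fintype.card A, ¬ IsRootOfUnity (phase (c (g + i • u) • disp (g + i • u) ψ)
      (c (g + i • u + u) • disp (g + i • u + u) ψ)) := by
  by_contra hall
  push Not at hall
  apply hu
  apply root_of_pow (n := Fintype.card A) Fintype.card_ne_zero
  have h1 := root_prod (range (Fintype.card A)) (fun i => phase (c (g + i • u) • disp (g + i • u) ψ)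
      (c (g + i • u + u) • disp (g + i • u + u) ψ)) (fun i hi => hall i (mem_range.mp hi))
  have h2 : ∀ g : A × AddChar A ℂ, phase (c g • disp g ψ) (c (g + u) • disp (g + u) ψ)
      = (conj (c g) * c (g + u)) * (u.2 (-g.1) * phase ψ (disp u ψ)) := by
    intro g
    rw [phase, phase, inner_smul_left, inner_smul_right, inner_disp_disp, add_sub_cancel_left]
    have : (g + u).2 - g.2 = u.2 := by rw [Prod.snd_add, add_sub_cancel_left]
    rw [this]
    ring
  simp only [h2] at h1
  rw [Finset.prod_mul_distrib, Finset.prod_mul_distrib, Finset.prod_mul_distrib,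
    Finset.prod_const, card_range] at h1
  have h3 : ∏ i ∈ range (Fintype.card A), c (g + i • u + u)
      = ∏ i ∈ range (Fintype.card A), c (g + i • u) := by
    have h4 : ∀ i : ℕ, c (g + i • u + u) = c (g + (i + 1) • u) := by
      intro i
      rw [add_smul, one_smul, add_assoc]
    simp only [h4]
    have h5 := Finset.prod_range_succ (fun i => c (g + i • u)) (Fintype.card A)
    rw [Finset.prod_range_succ', card_smul, zero_nsmul] at h5
    have h6 : c (g + 0) ≠ 0 := by
      intro h0
      have := hc (g + 0)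
      rw [h0, norm_zero] at this
      exact zero_ne_one this
    exact mul_right_cancel₀ h6 h5
  have h4 : (∏ i ∈ range (Fintype.card A), conj (c (g + i • u))) *
      ∏ i ∈ range (Fintype.card A), c (g + i • u + u) = 1 := by
    rw [h3, ← Finset.prod_mul_distrib]
    apply Finset.prod_eq_one
    intro i _
    rw [mul_comm, Complex.mul_conj, Complex.normSq_eq_norm_sq, hc]
    norm_num
  rw [h4, one_mul] at h1
  have h5 := root_prod (range (Fintype.card A)) (fun i => u.2 (-(g + i • u).1))
    (fun i _ => root_ch _ _)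
  have h6 := root_mul (root_inv h5) h1
  rw [← mul_assoc, inv_mul_cancel₀, one_mul] at h6
  · exact h6
  · apply Finset.prod_ne_zero_iff.mpr
    intro i _ h0
    have h7 := H138.SIC.ch_pow u.2 (-(g + i • u).1)
    rw [h0, zero_pow Fintype.card_ne_zero] at h7
    exact zero_ne_one h7

/-- Let `A` be a finite abelian group of order `d`, let the odd prime `p` divide `d` exactly once
and let `d + 1` be no perfect square.  Let the Weyl–Heisenberg orbit of `ψ ∈ ℂ^A` be a maximal
equiangular tight frame.  Then at least `p - 1` of the phases `√(d+1) ⟨ψ, D_g ψ⟩`, `g ≠ 0`, are not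
roots of unity.  For all complex numbers `c_g` of absolute value one at least `(p - 1) d` of the
phases `√(d+1) ⟨c_g D_g ψ, c_h D_h ψ⟩`, `g ≠ h`, are not roots of unity. -/
theorem result (A : Type) [AddCommGroup A] [Fintype A] (p : ℕ) (hp : p.Prime) (hp2 : p ≠ 2)
    (hd : p ∣ Fintype.card A) (hd2 : ¬ p ^ 2 ∣ Fintype.card A)
    (hsq : ¬ IsSquare (Fintype.card A + 1)) (ψ : EuclideanSpace ℂ A) (hψ : OrbitIsMaxETF ψ) :
    p - 1 ≤ Nat.card {g : A × AddChar A ℂ // g ≠ 0 ∧ ¬ IsRootOfUnity (phase ψ (disp g ψ))} ∧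
    ∀ c : A × AddChar A ℂ → ℂ, (∀ g, ‖c g‖ = 1) →
      (p - 1) * Fintype.card A ≤ Nat.card {x : (A × AddChar A ℂ) × (A × AddChar A ℂ) //
        x.1 ≠ x.2 ∧ ¬ IsRootOfUnity (phase (c x.1 • disp x.1 ψ) (c x.2 • disp x.2 ψ))} := by
  classical
  have : Fact p.Prime := ⟨hp⟩
  obtain ⟨m, hm⟩ := hd
  have hpm : ¬ p ∣ m := by
    rintro ⟨n, hn⟩
    apply hd2
    exact ⟨n, by rw [hm, hn]; ring⟩
  have h1 := H138.SIC.bad_card hm (fid ψ hψ) hp2 hpm hsq
  have hph : ∀ g, phase ψ (disp g ψ)
      = H138.SIC.sq A * H138.SIC.ov (fun k => conj (ψ k)) ψ g := by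
    intro g
    rw [phase, inner_disp]
    rfl
  refine ⟨?_, ?_⟩
  · rw [Nat.card_eq_fintype_card, Fintype.card_subtype]
    refine h1.trans (le_of_eq ?_)
    rw [H138.SIC.bad]
    congr 1
    apply Finset.filter_congr
    intro g _
    rw [hph, root_iff]
  · intro c hc
    rw [Nat.card_eq_fintype_card, Fintype.card_subtype]
    set bad := H138.SIC.bad (H138.SIC.ov (fun k => conj (ψ k)) ψ) with hbad
    let S : A × AddChar A ℂ → Finset (A × AddChar A ℂ) := fun u => univ.filter (fun g =>
      ¬ IsRootOfUnity (phase (c g • disp g ψ) (c (g + u) • disp (g + u) ψ)))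
    have hS : ∀ u ∈ bad, Fintype.card A ≤ (S u).card := by
      intro u hu
      rw [hbad, H138.SIC.bad, mem_filter, ← root_iff, ← hph] at hu
      have h2 : (univ : Finset (A × AddChar A ℂ)).card ≤ (S u ×ˢ range (Fintype.card A)).card := by
        have h3 : (univ : Finset (A × AddChar A ℂ)) ⊆
            (S u ×ˢ range (Fintype.card A)).image (fun z => z.1 - z.2 • u) := by
          intro g _
          obtain ⟨i, hi, hgi⟩ := exists_bad ψ c hc u hu.2.2 g
          rw [mem_image]
          exact ⟨(g + i • u, i), by simp [S, hgi, hi], by simp⟩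
        exact (Finset.card_le_card h3).trans Finset.card_image_le
      rw [Finset.card_product, card_range, Finset.card_univ, Fintype.card_prod,
        AddChar.card_eq] at h2
      exact Nat.le_of_mul_le_mul_right h2 Fintype.card_pos
    calc (p - 1) * Fintype.card A ≤ bad.card * Fintype.card A := Nat.mul_le_mul_right _ h1
      _ = ∑ u ∈ bad, Fintype.card A := by rw [Finset.sum_const, smul_eq_mul]
      _ ≤ ∑ u ∈ bad, (S u).card := Finset.sum_le_sum hS
      _ = (bad.sigma S).card := (Finset.card_sigma _ _).symm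
      _ ≤ _ := by
        apply Finset.card_le_card_of_injOn (fun z => (z.2, z.2 + z.1))
        · intro z hz
          rw [mem_coe, mem_sigma] at hz
          rw [mem_coe, mem_filter]
          refine ⟨mem_univ _, ?_, ?_⟩
          · intro h2
            have h3 : z.1 = 0 := by
              have h4 : z.2 + z.1 = z.2 + 0 := by rw [add_zero]; exact h2.symm
              exact add_left_cancel h4
            have h5 := hz.1
            rw [hbad, H138.SIC.bad, mem_filter] at h5
            exact h5.2.1 h3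
          · have h5 := hz.2
            simp only [S, mem_filter] at h5
            exact h5.2
        · intro z _ z' _ hzz
          simp only [Prod.mk.injEq] at hzz
          obtain ⟨h2, h3⟩ := hzz
          obtain ⟨z1, z2⟩ := z
          obtain ⟨z1', z2'⟩ := z'
          simp only at h2 h3
          subst h2
          have h4 := add_left_cancel h3
          subst h4
          rfl

end Pool.Agent.Results.MP_d0f9e0_co.PhasesNotRootsOfUnity
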