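import Pool.Agent.H990.SU.Etf

/-!
# The triple products of maximal equiangular tight frames in dimension `p` are units over `p`

Let `p ≥ 5` be a prime which is not exceptional; for instance `p` not congruent to `± 1` modulo `9`,
or `p < 1800`. Let `x` be a maximal equiangular tight frame in `ℂ^p` for which the unitary
transformations permuting its `p ^ 2` lines act transitively on them. We show that all triple
products `⟨x i, x j⟩ ⟨x j, x k⟩ ⟨x k, x i⟩` are units at all places over `p`. Moreover, modulo each
such place the `p ^ 2` lines fall into `p` classes of `p` lines so that the triple product of three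
lines depends only on their classes, and is `1` if two of the three lines are in one class.

By the library (`Y387.SF`) such a frame is an orbit of the Weyl-Heisenberg group, and the triple
products are products of three overlaps `A (a, b) = ⟨ψ, X ^ a Z ^ b ψ⟩`, up to roots of unity. So the
statement is about the overlaps, and it is proved for all solutions of the equations over all fields
of characteristic zero (`Pool.Agent.H990.SU.all_unit`, `all_inv`). The computed frames suggest that
`√(p + 1) A (a, b)` is always an algebraic unit; the factor does not matter here as it is a unit over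
`p`.

Idea of the proof. Let `M > 1` be the largest absolute value of an overlap at a place over `p`. The
overlaps, divided by a largest one, are modulo the place invariant under a nonzero translation, and
after a Clifford transformation this is the translation by `(0, 1)`.

(1) The products `w (x) u (y)` of the coordinates are bounded by `M`. The function `n ↦ A (a, n)` has
Newton coefficients `g_i (a) = ∑ f_a (x) (χ (x) - 1) ^ i`, `f_a (x) = w (x) u (x + a)`, and the claim
is equivalent to `|g_i| ≤ M |π| ^ i`, `π = χ (1) - 1`. If this is false take the largest slope
`R = (|g_i| / M) ^ (1 / i)` and the last index `j` at which it is attained; as the translation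
invariance says `R < 1`, there is a leading function `F (a) = g_j (a)` modulo the place. If
`2 j ≥ p - 1`, exchanging the second vectors in `p ∑ f_a (y + s) f_a' (y) (χ (y) - 1) ^ (2 j - p + 1)`
gives `F (a) F (a') = F (a' - s) F (a + s)`, so that `F` has no zeros. But if `|A (a, n)| = M` for all
`n` then `A (- a, - n)` is the inverse of `A (a, n)`, up to a character, and its Newton
coefficients have absolute values at most `M⁻¹ R ^ j`, so that `F (- a) = 0`. If `2 j < p - 1` then
`∑ F (a) F (z - a) = 0` for all `z` and `F (a) F (- a) = 0` for all `a`. The first equation says that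
`F` is a polynomial of degree less than `(p - 1) / 2`, and the second one that `F = 0`.

(2) So the largest products on the cyclic diagonals have absolute values at most `M`; the diagonal
of `a` with `|A (a, n)| = M` has a reduction with nonzero sum, the diagonal of `- a` is then bounded
by `M⁻¹`, and degrees of polynomials play the part of the uncertainty principle: two functions on
`ℤ / p` with zero correlation have supports with together at least `p + 2` elements. As for places
over zero it follows that the bounds of opposite diagonals are inverse to each other, and that the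
reduction of the main diagonal has two levels on which it is constant, with values `1 / μ` and `μ`.
Counting differences modulo `p` in the two levels shows that one of them is a single point and the
other one, with `n` elements, has `l = μ ^ 2` pairs with a given difference or none; and then `p` is
exceptional. Finally `μ ^ 3 - 3 μ + 1 = 0` up to sign, so that `p` is congruent to `± 1` modulo `9`.
-/

set_option autoImplicit false

namespace Pool.Agent.Results.MP_d0f9e0_co.UnitTripleProducts

open Pool.Agent.H990.SU

/-- `x` is a maximal equiangular tight frame in `ℂ^d`. -/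
def IsMaximalETF (d : ℕ) (x : Fin (d ^ 2) → EuclideanSpace ℂ (Fin d)) : Prop :=
  (∀ i, ‖x i‖ = 1) ∧ ∀ i j, i ≠ j → ‖inner ℂ (x i) (x j)‖ = 1 / Real.sqrt ((d : ℝ) + 1)

/-- The unitary transformations permuting the lines spanned by the vectors of `x` act transitively
on these lines. -/
def HasTransitiveSymmetry {d : ℕ} (x : Fin (d ^ 2) → EuclideanSpace ℂ (Fin d)) : Prop :=
  ∀ i j, ∃ (U : EuclideanSpace ℂ (Fin d) ≃ₗᵢ[ℂ] EuclideanSpace ℂ (Fin d))
    (π : Equiv.Perm (Fin (d ^ 2))), (∀ k, ∃ c : ℂ, U (x k) = c • x (π k)) ∧ π i = j

/-- the triple product of three vectors of `x` -/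
noncomputable def triple {d : ℕ} (x : Fin (d ^ 2) → EuclideanSpace ℂ (Fin d))
    (i j k : Fin (d ^ 2)) : ℂ :=
  inner ℂ (x i) (x j) * inner ℂ (x j) (x k) * inner ℂ (x k) (x i)

/-- **The triple products of maximal equiangular tight frames in dimension `p` are units over `p`.**
-/
theorem result :
    (∀ p : ℕ, p.Prime → 5 ≤ p → ¬ Exceptional p →
      ∀ x : Fin (p ^ 2) → EuclideanSpace ℂ (Fin p), IsMaximalETF p x → HasTransitiveSymmetry x →
        (∀ i j k, IsUnitAt p (triple x i j k)) ∧
        ∀ B : ValuationSubring ℂ, (p : ℂ) ∈ B.nonunits →
          ∃ c : Fin (p ^ 2) → Fin p, (∀ t, {i | c i = t}.ncard = p) ∧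
            (∀ i j k i' j' k', c i = c i' → c j = c j' → c k = c k' →
              triple x i j k - triple x i' j' k' ∈ B.nonunits) ∧
            ∀ i j k, c i = c j ∨ c j = c k ∨ c k = c i → triple x i j k - 1 ∈ B.nonunits) ∧
    (∀ p : ℕ, p.Prime → 5 ≤ p → (p % 9 ≠ 1 ∧ p % 9 ≠ 8) ∨ p < 1800 → ¬ Exceptional p) := by
  refine ⟨fun p hp hp5 hex x hx htr => ?_, fun p hp hp5 h hex => ?_⟩
  · have : Fact p.Prime := ⟨hp⟩
    obtain ⟨h1, h2⟩ := Pool.Agent.H990.SU.triple hp5 hex (x := x) ⟨hx.1, hx.2⟩
      (Fintype.card_fin _) (by rw [finrank_euclideanSpace_fin]) htr
    refine ⟨h1, fun B hB => ?_⟩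
    obtain ⟨c, hc, hc2⟩ := h2 B hB
    have eq : ZMod p ≃ Fin p := Fintype.equivOfCardEq (by rw [Fintype.card_fin, ZMod.card])
    refine ⟨fun i => eq (c i), fun t => ?_, fun i j k i' j' k' hi hj hk =>
      hc2 i j k i' j' k' (eq.injective hi) (eq.injective hj) (eq.injective hk), ?_⟩
    · have h3 : {i | eq (c i) = t} =
          ((Finset.univ.filter (fun i => c i = eq.symm t) : Finset (Fin (p ^ 2))) :
            Set (Fin (p ^ 2))) := by
        ext i
        simp [Equiv.eq_symm_apply]
      rw [h3, Set.ncard_coe_finset, hc]
    · have h5 : ∀ i k, triple x i i k - 1 ∈ B.nonunits := by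
        intro i k
        have h4 : inner ℂ (x i) (x i) = 1 := by
          rw [inner_self_eq_norm_sq_to_K, hx.1 i]; simp
        by_cases hik : i = k
        · rw [← hik, triple, h4, mul_one, mul_one, sub_self]
          exact B.nonunits.zero_mem
        · have h6 : inner ℂ (x i) (x k) * inner ℂ (x k) (x i) = ((p : ℂ) + 1)⁻¹ := by
            rw [← inner_conj_symm (x k) (x i), Complex.mul_conj, Complex.normSq_eq_norm_sq,
              hx.2 i k hik, div_pow, one_pow, Real.sq_sqrt (by positivity)]
            push_cast
            rw [one_div]
          have h7 : (p : ℂ) + 1 ≠ 0 := by exact_mod_cast p.succ_ne_zero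
          have h8 : triple x i i k - 1 = -((p : ℂ) * ((p : ℂ) + 1)⁻¹) := by
            rw [triple, h4, one_mul, h6]
            field_simp
            ring
          rw [h8, ValuationSubring.mem_nonunits_iff, Valuation.map_neg, map_mul, Pool.Agent.H990.SP.val_c hB, mul_one]
          exact hB
      have hcyc : ∀ i j k, triple x i j k = triple x j k i := by
        intro i j k
        unfold triple
        ring
      have h9 : ∀ i j k, c i = c j → triple x i j k - 1 ∈ B.nonunits := by
        intro i j k h
        have h10 := hc2 i j k i i k rfl h.symm rfl
        have h11 := B.nonunits.add_mem h10 (h5 i k)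
        have h12 : triple x i j k - 1 = (triple x i j k - triple x i i k) +
            (triple x i i k - 1) := by ring
        rw [h12]
        exact h11
      intro i j k h
      rcases h with h | h | h
      · exact h9 i j k (eq.injective h)
      · rw [hcyc]
        exact h9 j k i (eq.injective h)
      · rw [hcyc, hcyc]
        exact h9 k i j (eq.injective h)
  · have : Fact p.Prime := ⟨hp⟩
    rcases h with h | h
    · rcases exc_nine hp5 hex with h1 | h1
      · exact h.1 h1
      · exact h.2 h1
    · exact not_exc_small p h hex

end Pool.Agent.Results.MP_d0f9e0_co.UnitTripleProducts
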